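import Pool.Agent.Lib_MP_70e04f_strip.SFinal

/-!
The SHGH conjecture for all plane linear systems in standard form which are outside of a thin strip
around the light cone.
-/

namespace Pool.Agent.Results.MP_70e04f_ag.Strip

/-- For general points `p i` of the affine plane the space of curves of degree at most `d` with
multiplicity at least `mult i` at `p i` has the expected dimension `max 0 χ`. -/
def Expected {n : ℕ} (d : ℕ) (mult : Fin n → ℕ) : Prop :=
  ∃ g : MvPolynomial (Fin n × Fin 2) ℂ, g ≠ 0 ∧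
    ∀ p : Fin n → Fin 2 → ℂ,
      MvPolynomial.eval (fun q : Fin n × Fin 2 => p q.1 q.2) g ≠ 0 →
        ((2 : ℤ) * ((Module.finrank ℂ
            ↥(MvPolynomial.restrictTotalDegree (Fin 2) ℂ d ⊓
              ⨅ i : Fin n, Submodule.restrictScalars ℂ
                ((RingHom.ker (MvPolynomial.eval (p i)) :
                    Ideal (MvPolynomial (Fin 2) ℂ)) ^ mult i)) : ℕ) : ℤ)
          = max 0 (((d : ℤ) + 1) * ((d : ℤ) + 2) -
              ∑ i, (mult i : ℤ) * ((mult i : ℤ) + 1)))

/-- Let `α 0, ..., α 9` be ten indices with decreasing multiplicities `m_1 ≥ ... ≥ m_10 ≥ 2`, let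
all other multiplicities be at most `m_10`, and suppose that the system is in standard form, that
is `m_1 + m_2 + m_3 ≤ d`. If `(d + 3) ^ 2 - ∑_{mult i ≥ 2} (mult i + 1) ^ 2 > (m_10 + 1) ^ 2`, or if
`d ^ 2 - ∑ mult i ^ 2 ≤ - m_10 ^ 2`, then the system has the expected dimension in degree `d`, and
in all degrees `D ≤ d` if `(d + 1) (d + 2) ≤ ∑ mult i (mult i + 1)`. -/
theorem result :
    ∀ (n d D : ℕ) (mult : Fin n → ℕ) (α : Fin 10 → Fin n),
      Function.Injective α → Antitone (fun j => mult (α j)) →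
      2 ≤ mult (α 9) → (∀ i, i ∉ Set.range α → mult i ≤ mult (α 9)) →
      mult (α 0) + mult (α 1) + mult (α 2) ≤ d →
      (∑ i with 2 ≤ mult i, (mult i + 1) ^ 2 + (mult (α 9) + 1) ^ 2 < (d + 3) ^ 2 ∨
        d ^ 2 + mult (α 9) ^ 2 ≤ ∑ i, mult i ^ 2) →
      (D = d ∨ D ≤ d ∧ (d + 1) * (d + 2) ≤ ∑ i, mult i * (mult i + 1)) →
      Expected D mult :=
  fun n d D mult α hα hanti h2 hother hstd hbig hD =>
    Pool.MP_70e04f_ag.Strip.gen_strip n d D mult α hα hanti h2 hother hstd hbig hD

end Pool.Agent.Results.MP_70e04f_ag.Strip
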